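import Pool.Agent.Helper61.MM.Exit
import Pool.Agent.Helper61.MM.Wall
import Pool.Agent.Helper5.MMRepB
import Pool.Agent.Helper60.TJ.F2
import Pool.Agent.Helper60.TJ.C0

set_option autoImplicit false

/-!
# Raising the spare weights: from good pairs to exact reflections
-/

namespace Pool.Agent.Helper78.MM

open MeasureTheory ProbabilityTheory Filter Topology Pool.Agent.Helper60.TJ
open Pool.Agent.Helper61.MM Pool.Agent.Helper5.MM
open scoped symmDiff ENNReal

variable {lam : Measure ℝ} {κ : Kernel WT Rs} {R : Measure Om}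

/-! ### measurability of the set of good pairs -/

private theorem ms_wl (e : Ed) (b : Bool) : MeasurableSet {z : Om | wl (pr 0 1 g0 z) e = b} :=
  (meas_pr 0 1 g0) (measurable_wl (measurableSet_coord e b))

private theorem ms_on (v : Vx) : MeasurableSet {z : Om | OnW (wl (pr 0 1 g0 z)) v} :=
  (meas_pr 0 1 g0) (measurable_wl (measurableSet_OnW v))

private theorem ms_seg (v v' : Vx) (X : Finset Ed) :
    MeasurableSet {z : Om | IsSeg (pr 0 1 g0 z) v v' X} := by
  have h1 : {z : Om | IsSeg (pr 0 1 g0 z) v v' X} =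
      (⋂ e ∈ X, {z : Om | wl (pr 0 1 g0 z) e = true}) ∩
        {_z : Om | par (ind X) = vx (dl v) (dl v')} := by
    ext z; simp [IsSeg]
  rw [h1]
  exact (Finset.measurableSet_biInter _ fun e _ => ms_wl e true).inter (MeasurableSet.const _)

private theorem mf_en (X : Finset Ed) :
    Measurable fun z : Om => en (ww g0 z.1) (uu (rp z 0) g0) X := by
  unfold en
  refine Finset.measurable_sum _ fun e _ => ?_
  refine Measurable.mul ?_ ?_
  · exact (measurable_pi_apply e).comp ((meas_ww g0).comp measurable_fst)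
  · exact (measurable_of_finite sg).comp
      ((measurable_pi_apply e).comp ((meas_uu g0).comp (meas_rp 0)))

private theorem mf_hh (i : Fin 3) (D : Finset Ed) : Measurable fun z : Om => hh (rp z i) g0 D :=
  (measurable_pi_apply D).comp (measurable_fst.comp (measurable_snd.comp
    ((measurable_pi_apply g0).comp (meas_rp i))))

private theorem ms_dft (C : ℝ) (v v' : Vx) : MeasurableSet {z : Om | Dft C g0 v v' z} := by
  have h1 : {z : Om | Dft C g0 v v' z} = ⋂ D : Finset Ed, ⋂ X : Finset Ed,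
      ({_z : Om | par (ind D) = vx (dl v) (dl v')}ᶜ ∪ ({z : Om | IsSeg (pr 0 1 g0 z) v v' X}ᶜ ∪
        ({z : Om | en (ww g0 z.1) (uu (rp z 0) g0) X ≤ hh (rp z 0) g0 D + C} ∩
          {z : Om | -en (ww g0 z.1) (uu (rp z 0) g0) X ≤ hh (rp z 1) g0 D + C}))) := by
    ext z
    unfold Dft
    simp only [Set.mem_ofPred_eq, Set.mem_iInter, Set.mem_union, Set.mem_compl_iff,
      Set.mem_inter_iff]
    constructor
    · intro h D X
      by_cases h1 : par (ind D) = vx (dl v) (dl v')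
      · by_cases h2 : IsSeg (pr 0 1 g0 z) v v' X
        · exact Or.inr (Or.inr (h D X h1 h2))
        · exact Or.inr (Or.inl h2)
      · exact Or.inl h1
    · intro h D X h1 h2
      rcases h D X with h3 | h3 | h3
      · exact absurd h1 h3
      · exact absurd h2 h3
      · exact h3
  rw [h1]
  refine MeasurableSet.iInter fun D => MeasurableSet.iInter fun X => ?_
  refine (MeasurableSet.const _).compl.union ((ms_seg v v' X).compl.union (MeasurableSet.inter ?_ ?_))
  · exact measurableSet_le (mf_en X) ((mf_hh 0 D).add_const C)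
  · exact measurableSet_le (mf_en X).neg ((mf_hh 1 D).add_const C)

private theorem ms_wn (n : ℕ) (y v : Vx) : MeasurableSet {z : Om | Wn n (pr 0 1 g0 z) y v} := by
  have h1 : {z : Om | Wn n (pr 0 1 g0 z) y v} = ⋃ d : Dir,
      ({z | wl (pr 0 1 g0 z) (edg y d) = true} ∩
      ⋃ m ∈ Finset.range n, {z | v = y + pos (shX y (pr 0 1 g0 z), d) m}) := by
    ext z
    simp [Wn]
  rw [h1]
  refine MeasurableSet.iUnion fun d =>
    (ms_wl _ true).inter (Finset.measurableSet_biUnion _ fun m _ => ?_)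
  have h2 : Measurable fun z : Om => pos (shX y (pr 0 1 g0 z), d) m :=
    (measurable_pos m).comp (((measurable_shX' y).comp (meas_pr 0 1 g0)).prodMk measurable_const)
  have h3 : {z : Om | v = y + pos (shX y (pr 0 1 g0 z), d) m} =
      (fun z : Om => pos (shX y (pr 0 1 g0 z), d) m) ⁻¹' {u | v = y + u} := rfl
  rw [h3]
  exact h2 (Set.to_countable _).measurableSet

private theorem ms_hi (n : ℕ) (C : ℝ) (y y' : Vx) : MeasurableSet {z : Om |
    ∃ v X Y, Wn n (pr 0 1 g0 z) y v ∧ Dft C g0 v y' z ∧ IsSeg (pr 0 1 g0 z) y y' X ∧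
    IsSeg (pr 0 1 g0 z) v y' Y ∧
      en (ww g0 z.1) (uu (rp z 0) g0) X + C < en (ww g0 z.1) (uu (rp z 0) g0) Y} := by
  have h1 : {z : Om | ∃ v X Y, Wn n (pr 0 1 g0 z) y v ∧ Dft C g0 v y' z ∧
      IsSeg (pr 0 1 g0 z) y y' X ∧ IsSeg (pr 0 1 g0 z) v y' Y ∧
      en (ww g0 z.1) (uu (rp z 0) g0) X + C < en (ww g0 z.1) (uu (rp z 0) g0) Y} =
      ⋃ v : Vx, ⋃ X : Finset Ed, ⋃ Y : Finset Ed,
      ({z | Wn n (pr 0 1 g0 z) y v} ∩ ({z | Dft C g0 v y' z} ∩ ({z | IsSeg (pr 0 1 g0 z) y y' X} ∩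
        ({z | IsSeg (pr 0 1 g0 z) v y' Y} ∩ {z | en (ww g0 z.1) (uu (rp z 0) g0) X + C <
          en (ww g0 z.1) (uu (rp z 0) g0) Y})))) := by
    ext z
    simp only [Set.mem_ofPred_eq, Set.mem_iUnion, Set.mem_inter_iff]
  rw [h1]
  refine MeasurableSet.iUnion fun v => MeasurableSet.iUnion fun X => MeasurableSet.iUnion fun Y => ?_
  exact (ms_wn n y v).inter ((ms_dft C v y').inter ((ms_seg y y' X).inter ((ms_seg v y' Y).inter
    (measurableSet_lt ((mf_en X).add_const C) (mf_en Y)))))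

private theorem ms_lo (n : ℕ) (C : ℝ) (y y' : Vx) : MeasurableSet {z : Om |
    ∃ v X Y, Wn n (pr 0 1 g0 z) y v ∧ Dft C g0 v y' z ∧ IsSeg (pr 0 1 g0 z) y y' X ∧
    IsSeg (pr 0 1 g0 z) v y' Y ∧
      en (ww g0 z.1) (uu (rp z 0) g0) Y + C < en (ww g0 z.1) (uu (rp z 0) g0) X} := by
  have h1 : {z : Om | ∃ v X Y, Wn n (pr 0 1 g0 z) y v ∧ Dft C g0 v y' z ∧
      IsSeg (pr 0 1 g0 z) y y' X ∧ IsSeg (pr 0 1 g0 z) v y' Y ∧
      en (ww g0 z.1) (uu (rp z 0) g0) Y + C < en (ww g0 z.1) (uu (rp z 0) g0) X} =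
      ⋃ v : Vx, ⋃ X : Finset Ed, ⋃ Y : Finset Ed,
      ({z | Wn n (pr 0 1 g0 z) y v} ∩ ({z | Dft C g0 v y' z} ∩ ({z | IsSeg (pr 0 1 g0 z) y y' X} ∩
        ({z | IsSeg (pr 0 1 g0 z) v y' Y} ∩ {z | en (ww g0 z.1) (uu (rp z 0) g0) Y + C <
          en (ww g0 z.1) (uu (rp z 0) g0) X})))) := by
    ext z
    simp only [Set.mem_ofPred_eq, Set.mem_iUnion, Set.mem_inter_iff]
  rw [h1]
  refine MeasurableSet.iUnion fun v => MeasurableSet.iUnion fun X => MeasurableSet.iUnion fun Y => ?_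
  exact (ms_wn n y v).inter ((ms_dft C v y').inter ((ms_seg y y' X).inter ((ms_seg v y' Y).inter
    (measurableSet_lt ((mf_en Y).add_const C) (mf_en X)))))

private theorem ms_gd (n : ℕ) (C : ℝ) (y y' : Vx) : MeasurableSet {z : Om | Gd n C y y' z} :=
  (ms_hi n C y y').inter (ms_lo n C y y')

theorem measurableSet_GG (n : ℕ) (C : ℝ) (y y' : Vx) : MeasurableSet (GG n C y y') :=
  (measurableSet_Df 0 1 g0).inter ((ms_on y).inter ((ms_on y').inter ((ms_dft C y y').inter
    ((ms_gd n C y y').inter (ms_gd n C y' y)))))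

/-! ### everything is a function of the observables -/

/-- rebuild a point of `Om` from the observables -/
def lft (q : WT × Rs × Rs × Rs) : Om :=
  ((fun e => (q.1.1 e, 0), q.1.2), (fun g => q.2.1 g.1), (fun g => q.2.2.1 g.1),
    (fun g => q.2.2.2 g.1))

theorem meas_lft : Measurable lft := by
  have h : ∀ f : (WT × Rs × Rs × Rs) → Rs, Measurable f →
      Measurable fun q => (fun g : Gm => f q g.1 : Vl) := fun f hf =>
    measurable_pi_lambda _ fun g => (measurable_pi_apply g.1).comp hf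
  refine Measurable.prodMk (Measurable.prodMk ?_ (measurable_snd.comp measurable_fst))
    ((h _ (measurable_fst.comp measurable_snd)).prodMk
      ((h _ (measurable_fst.comp (measurable_snd.comp measurable_snd))).prodMk
        (h _ (measurable_snd.comp (measurable_snd.comp measurable_snd)))))
  exact measurable_pi_lambda _ fun e =>
    ((measurable_pi_apply e).comp (measurable_fst.comp measurable_fst)).prodMk measurable_const

theorem ww_g0 (ω : Env) : ww g0 ω = fun e => (ω.1 e).1 := by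
  funext e
  simp [ww]

theorem ww_lft (z : Om) : ww g0 (lft (obs z)).1 = ww g0 z.1 := by
  rw [ww_g0, ww_g0]
  rfl

theorem rp_lft (z : Om) (i : Fin 3) : rp (lft (obs z)) i g0 = rp z i g0 := by
  fin_cases i <;> rfl

theorem uu_lft (z : Om) (i : Fin 3) : uu (rp (lft (obs z)) i) g0 = uu (rp z i) g0 := by
  unfold uu
  rw [rp_lft]

theorem hh_lft (z : Om) (i : Fin 3) (D : Finset Ed) :
    hh (rp (lft (obs z)) i) g0 D = hh (rp z i) g0 D := by
  unfold hh
  rw [rp_lft]

theorem pr_lft (z : Om) (i j : Fin 3) : pr i j g0 (lft (obs z)) = pr i j g0 z := by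
  unfold pr
  rw [uu_lft, uu_lft, ww_lft]

theorem dft_lft (C : ℝ) (v v' : Vx) (z : Om) : Dft C g0 v v' (lft (obs z)) ↔ Dft C g0 v v' z := by
  unfold Dft
  simp only [pr_lft, ww_lft, uu_lft, hh_lft]

theorem gd_lft (n : ℕ) (C : ℝ) (v v' : Vx) (z : Om) :
    Gd n C v v' (lft (obs z)) ↔ Gd n C v v' z := by
  unfold Gd
  simp only [pr_lft, ww_lft, uu_lft, dft_lft]

theorem GG_lft (n : ℕ) (C : ℝ) (y y' : Vx) (z : Om) :
    lft (obs z) ∈ GG n C y y' ↔ z ∈ GG n C y y' := by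
  simp only [Pool.Agent.Helper61.MM.GG, Df, Set.mem_ofPred_eq, pr_lft, uu_lft, dft_lft, gd_lft]

/-! ### independence of the spare weights -/

theorem indep_spr (hl : Wgt lam) (hR : IsR lam κ R) {G : Set Om} (hG : MeasurableSet G)
    (hG' : ∀ z, lft (obs z) ∈ G ↔ z ∈ G) (A : Finset Ed) (t : ℝ) :
    R (G ∩ {z | ∀ e ∈ A, t < spr z.1 e}) = lam (Set.Ioi t) ^ A.card * R G := by
  have := hR.mark
  have := hR.prob
  have := hl.prob
  have h2 : Measurable (fun z : Om => (spr z.1, obs z)) :=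
    (meas_spr.comp measurable_fst).prodMk meas_obs
  have hlaw : R.map (fun z : Om => (spr z.1, obs z)) = (PP lam).prod (R.map obs) := by
    rw [map_obs hR]
    exact hR.law
  have hS : MeasurableSet (Set.pi (A : Set Ed) fun _ => Set.Ioi t) :=
    MeasurableSet.pi A.countable_toSet fun _ _ => measurableSet_Ioi
  have h3 : G ∩ {z | ∀ e ∈ A, t < spr z.1 e} =
      (fun z : Om => (spr z.1, obs z)) ⁻¹'
        ((Set.pi (A : Set Ed) fun _ => Set.Ioi t) ×ˢ (lft ⁻¹' G)) := by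
    ext z
    simp only [Set.mem_inter_iff, Set.mem_ofPred_eq, Set.mem_preimage, Set.mem_prod, Set.mem_pi,
      Finset.mem_coe, Set.mem_Ioi, hG' z]
    exact and_comm
  have h4 : G = obs ⁻¹' (lft ⁻¹' G) := by
    ext z
    exact (hG' z).symm
  rw [h3, ← Measure.map_apply h2 (hS.prod (meas_lft hG)), hlaw, Measure.prod_prod,
    Measure.map_apply meas_obs (meas_lft hG), ← h4]
  congr 1
  have h5 := Measure.infinitePi_pi (μ := fun _ : Ed => lam) (s := A) (t := fun _ => Set.Ioi t)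
    fun _ _ => measurableSet_Ioi
  rw [h5, Finset.prod_const]

/-- law of one weight -/
theorem law_w (hl : Wgt lam) (hR : IsR lam κ R) (e : Ed) (b : ℝ) :
    R {z | b < ww g0 z.1 e} = lam (Set.Ioi b) := by
  have := hR.mark
  have := hR.prob
  have := hl.prob
  have h1 : {z : Om | b < ww g0 z.1 e} =
      obs ⁻¹' (Prod.fst ⁻¹' (Prod.fst ⁻¹' ((fun w : Ed → ℝ => w e) ⁻¹' Set.Ioi b))) := by
    ext z
    simp only [ww_g0, Set.mem_ofPred_eq, Set.mem_preimage, Set.mem_Ioi]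
    rfl
  have m1 : MeasurableSet ((fun w : Ed → ℝ => w e) ⁻¹' Set.Ioi b) :=
    (measurable_pi_apply e) measurableSet_Ioi
  have m2 : MeasurableSet (Prod.fst ⁻¹' ((fun w : Ed → ℝ => w e) ⁻¹' Set.Ioi b) : Set WT) :=
    measurable_fst m1
  rw [h1, ← Measure.map_apply meas_obs (measurable_fst m2), map_obs hR,
    ← Measure.fst_apply m2, Measure.fst_compProd, ← Measure.fst_apply m1, Measure.fst_prod,
    ← Measure.map_apply (measurable_pi_apply e) measurableSet_Ioi, Measure.infinitePi_map_eval]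

theorem exists_small (hl : Wgt lam) (m : ℕ) {c : ENNReal} (hc : 0 < c) :
    ∃ b : ℝ, (m : ENNReal) * lam (Set.Ioi b) ≤ c := by
  have := hl.prob
  have h1 : Tendsto (fun n : ℕ => lam (Set.Ioi (n : ℝ))) atTop (𝓝 (lam (⋂ n : ℕ, Set.Ioi (n : ℝ)))) :=
    tendsto_measure_iInter_atTop (fun n => measurableSet_Ioi.nullMeasurableSet)
      (fun a b hab => Set.Ioi_subset_Ioi (by exact_mod_cast hab)) ⟨0, measure_ne_top _ _⟩
  have h2 : (⋂ n : ℕ, Set.Ioi (n : ℝ)) = ∅ := by
    ext x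
    simp only [Set.mem_iInter, Set.mem_Ioi, Set.mem_empty_iff_false, iff_false, not_forall, not_lt]
    exact exists_nat_ge x
  rw [h2, measure_empty] at h1
  have h3 : Tendsto (fun n : ℕ => (m : ENNReal) * lam (Set.Ioi (n : ℝ))) atTop (𝓝 (m * 0)) :=
    ENNReal.Tendsto.const_mul h1 (Or.inr (ENNReal.natCast_ne_top m))
  rw [mul_zero] at h3
  obtain ⟨n, hn⟩ := (h3.eventually (ge_mem_nhds hc)).exists
  exact ⟨n, hn⟩

theorem ae_of_QQ {P : XX → Prop} (h : ∀ᵐ p ∂(QQ R), P p) :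
    ∀ᵐ z ∂(R), z ∈ Df 0 1 g0 → P (pr 0 1 g0 z) := by
  unfold QQ at h
  exact (ae_restrict_iff' (measurableSet_Df 0 1 g0)).1 (ae_of_ae_map (meas_pr 0 1 g0).aemeasurable h)

/-! ### patterns -/

/-- the off-wall edges of `E` are `A`, the unsatisfied ones among them are `A₁` -/
def Pat (E A A₁ : Finset Ed) : Set Om :=
  {z | (∀ e, e ∈ A ↔ (e ∈ E ∧ wl (pr 0 1 g0 z) e = false)) ∧
    ∀ e, e ∈ A₁ ↔ (e ∈ A ∧ uu (rp z 0) g0 e = true)}

theorem measurableSet_Pat (E A A₁ : Finset Ed) : MeasurableSet (Pat E A A₁) := by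
  have h1 : Pat E A A₁ = (⋂ e : Ed, (fun z : Om => wl (pr 0 1 g0 z) e) ⁻¹'
      {b | e ∈ A ↔ (e ∈ E ∧ b = false)}) ∩ (⋂ e : Ed, (fun z : Om => uu (rp z 0) g0 e) ⁻¹'
      {b | e ∈ A₁ ↔ (e ∈ A ∧ b = true)}) := by
    ext z
    simp only [Pat, Set.mem_ofPred_eq, Set.mem_inter_iff, Set.mem_iInter, Set.mem_preimage]
  rw [h1]
  refine (MeasurableSet.iInter fun e => ?_).inter (MeasurableSet.iInter fun e => ?_)
  · exact ((measurable_pi_apply e).comp (measurable_wl.comp (meas_pr 0 1 g0)))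
      (Set.to_countable _).measurableSet
  · exact ((measurable_pi_apply e).comp ((meas_uu g0).comp (meas_rp 0)))
      (Set.to_countable _).measurableSet

theorem Pat_lft (E A A₁ : Finset Ed) (z : Om) : lft (obs z) ∈ Pat E A A₁ ↔ z ∈ Pat E A A₁ := by
  simp only [Pat, Set.mem_ofPred_eq, pr_lft, uu_lft]

/-- weights bounded by `b` on `E` -/
def Bd (E : Finset Ed) (b : ℝ) : Set Om := {z | ∀ e ∈ E, ww g0 z.1 e ≤ b}

theorem measurableSet_Bd (E : Finset Ed) (b : ℝ) : MeasurableSet (Bd E b) := by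
  have h1 : Bd E b = ⋂ e ∈ E, {z : Om | ww g0 z.1 e ≤ b} := by
    ext z; simp [Bd]
  rw [h1]
  exact Finset.measurableSet_biInter _ fun e _ => measurableSet_le
    ((measurable_pi_apply e).comp ((meas_ww g0).comp measurable_fst)) measurable_const

theorem Bd_lft (E : Finset Ed) (b : ℝ) (z : Om) : lft (obs z) ∈ Bd E b ↔ z ∈ Bd E b := by
  simp only [Bd, Set.mem_ofPred_eq, ww_lft]

theorem card_bEy (n : ℕ) (y : Vx) : (bEy n y).card ≤ (box n).card * 4 := by
  refine Finset.card_image_le.trans ?_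
  rw [Finset.card_product]
  simp

/-- raising the spare weights: from good pairs to exact reflections -/
theorem swap_prob (hl : Wgt lam) (hu : ∀ K : ℝ, lam {x | K < x} ≠ 0)
    (hR : IsR lam κ R) (hW : IsW lam (QQ R))
    {c : ENNReal} (hc : 0 < c) (n : ℕ) {C : ℝ} (hC : 0 ≤ C) :
    ∃ c' : ENNReal, 0 < c' ∧ ∀ y y' : Vx, y' - y ∉ box (2 * n + 4) → c ≤ R (GG n C y y') →
      c' ≤ R (Ex2 y y') := by
  classical
  have := hR.mark
  have := hR.prob
  have := hl.prob
  set m : ℕ := (box (n + 1)).card * 4 + (box (n + 1)).card * 4 with hm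
  obtain ⟨b, hb⟩ := exists_small hl m (ENNReal.half_pos hc.ne')
  set q : ENNReal := lam (Set.Ioi (b + (C + 1))) with hq
  have hq0 : q ≠ 0 := hu _
  have hq1 : q ≤ 1 := prob_le_one
  refine ⟨c / 2 * q ^ m / (2 ^ m * 2 ^ m), ?_, fun y y' hfar hcG => ?_⟩
  · refine ENNReal.div_pos ?_ ?_
    · exact mul_ne_zero (ENNReal.half_pos hc.ne').ne' (pow_ne_zero _ hq0)
    · finiteness
  have hct : c ≠ ⊤ := by
    intro h
    rw [h] at hcG
    exact absurd (hcG.trans prob_le_one) (by simp)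
  set E : Finset Ed := bEy (n + 1) y ∪ bEy (n + 1) y' with hE
  have hEm : E.card ≤ m := by
    refine (Finset.card_union_le _ _).trans (add_le_add (card_bEy _ _) (card_bEy _ _))
  -- bounded weights
  have h1 : c / 2 ≤ R (GG n C y y' ∩ Bd E b) := by
    have h2 : GG n C y y' ⊆ (GG n C y y' ∩ Bd E b) ∪ ⋃ e ∈ E, {z : Om | b < ww g0 z.1 e} := by
      intro z hz
      by_cases h : z ∈ Bd E b
      · exact Or.inl ⟨hz, h⟩
      · right
        simp only [Bd, Set.mem_ofPred_eq, not_forall, not_le] at h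
        obtain ⟨e, he, h⟩ := h
        simp only [Set.mem_iUnion]
        exact ⟨e, he, h⟩
    have h3 : R (⋃ e ∈ E, {z : Om | b < ww g0 z.1 e}) ≤ c / 2 := by
      refine (measure_biUnion_finset_le _ _).trans ?_
      rw [Finset.sum_congr rfl fun e _ => law_w hl hR e b, Finset.sum_const, nsmul_eq_mul]
      refine le_trans ?_ hb
      gcongr
    have h4 : c ≤ R (GG n C y y' ∩ Bd E b) + c / 2 :=
      hcG.trans ((measure_mono h2).trans ((measure_union_le _ _).trans (add_le_add le_rfl h3)))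
    have h5 : c / 2 + c / 2 ≤ R (GG n C y y' ∩ Bd E b) + c / 2 := by
      rwa [ENNReal.add_halves]
    exact (ENNReal.add_le_add_iff_right (ENNReal.div_ne_top hct (by norm_num))).1 h5
  -- patterns
  have h6 : GG n C y y' ∩ Bd E b ⊆ ⋃ x ∈ E.powerset ×ˢ E.powerset,
      (GG n C y y' ∩ Bd E b ∩ Pat E x.1 x.2) := by
    intro z hz
    simp only [Set.mem_iUnion]
    refine ⟨(E.filter fun e => wl (pr 0 1 g0 z) e = false,
      (E.filter fun e => wl (pr 0 1 g0 z) e = false).filter fun e => uu (rp z 0) g0 e = true),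
      ?_, hz, ?_, ?_⟩
    · rw [Finset.mem_product, Finset.mem_powerset, Finset.mem_powerset]
      exact ⟨Finset.filter_subset _ _, (Finset.filter_subset _ _).trans (Finset.filter_subset _ _)⟩
    · intro e
      exact Finset.mem_filter
    · intro e
      exact Finset.mem_filter
  have h7 : ∀ x ∈ E.powerset ×ˢ E.powerset,
      R (GG n C y y' ∩ Bd E b ∩ Pat E x.1 x.2) * q ^ m ≤ R (Ex2 y y') := by
    rintro ⟨A, A₁⟩ hx
    rw [Finset.mem_product, Finset.mem_powerset, Finset.mem_powerset] at hx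
    have hcard : A.card ≤ m := (Finset.card_le_card hx.1).trans hEm
    have h8 := indep_spr hl hR (G := GG n C y y' ∩ Bd E b ∩ Pat E A A₁)
      (((measurableSet_GG n C y y').inter (measurableSet_Bd E b)).inter (measurableSet_Pat E A A₁))
      (fun z => and_congr (and_congr (GG_lft n C y y' z) (Bd_lft E b z)) (Pat_lft E A A₁ z)) A
      (b + (C + 1))
    have h9 : q ^ m ≤ q ^ A.card := pow_le_pow_right_of_le_one' hq1 hcard
    calc R (GG n C y y' ∩ Bd E b ∩ Pat E A A₁) * q ^ m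
        ≤ q ^ A.card * R (GG n C y y' ∩ Bd E b ∩ Pat E A A₁) := by
          rw [mul_comm]; gcongr
      _ = R (GG n C y y' ∩ Bd E b ∩ Pat E A A₁ ∩ {z | ∀ e ∈ A, b + (C + 1) < spr z.1 e}) :=
          h8.symm
      _ ≤ R (aO (tg (sg2 g0 A) A₁) ⁻¹' Ex2 y y') := by
          refine measure_mono_ae ?_
          filter_upwards [hR.ok, ae_of_QQ (w_one hl hW), ae_of_QQ (w_acy hW)]
            with z hz hone hac hmem
          obtain ⟨⟨⟨g1, g2⟩, g3⟩, g4⟩ := hmem
          refine exit hz (hone g1.1) (hac g1.1) hC (lt_add_one C) hfar g1 g3.1 g3.2 ?_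
          intro e he
          have e1 : ww g0 z.1 e ≤ b := g2 e (((g3.1 e).1 he).1)
          have e2 : b + (C + 1) < (z.1.1 e).2 := g4 e he
          have e3 : ww (sg2 g0 A) z.1 e = (z.1.1 e).2 := by
            have : e ∈ (sg2 g0 A).2 := by
              simp only [sg2]
              rw [Finset.mem_symmDiff]
              exact Or.inr ⟨he, Finset.notMem_empty e⟩
            simp [ww, this]
          rw [e3]
          linarith
      _ ≤ R (Ex2 y y') := (hR.act _).measure_preimage_le _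
  have h10 : c / 2 * q ^ m ≤ (2 ^ m * 2 ^ m) * R (Ex2 y y') := by
    calc c / 2 * q ^ m ≤ R (GG n C y y' ∩ Bd E b) * q ^ m := by gcongr
      _ ≤ (∑ x ∈ E.powerset ×ˢ E.powerset, R (GG n C y y' ∩ Bd E b ∩ Pat E x.1 x.2)) * q ^ m := by
          gcongr
          exact (measure_mono h6).trans (measure_biUnion_finset_le _ _)
      _ = ∑ x ∈ E.powerset ×ˢ E.powerset, R (GG n C y y' ∩ Bd E b ∩ Pat E x.1 x.2) * q ^ m :=
          Finset.sum_mul _ _ _
      _ ≤ ∑ x ∈ E.powerset ×ˢ E.powerset, R (Ex2 y y') := Finset.sum_le_sum h7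
      _ = ((2 ^ E.card * 2 ^ E.card : ℕ) : ENNReal) * R (Ex2 y y') := by
          rw [Finset.sum_const, nsmul_eq_mul, Finset.card_product, Finset.card_powerset]
      _ ≤ (2 ^ m * 2 ^ m) * R (Ex2 y y') := by
          push_cast
          gcongr <;> norm_num
  exact ENNReal.div_le_of_le_mul' h10

/-! ### shifts -/

theorem onW_sh (u : Vx) (W : Ed → Bool) (v : Vx) : OnW (sh u W) v ↔ OnW W (v + u) := by
  unfold OnW
  simp only [edg_add]
  rfl

theorem wl_shO (u : Vx) (g : Gm) (z : Om) :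
    wl (pr 0 1 g (shO u z)) = sh u (wl (pr 0 1 (trV u g.1, trE u g.2) z)) := rfl

theorem trV_txy (y y' : Vx) : trV y (txy 0 (y' - y)).1 = (txy y y').1 := by
  have h1 : ∀ v : Vx, v ∈ trV y (txy 0 (y' - y)).1 ↔ v - y ∈ (txy 0 (y' - y)).1 := by
    intro v
    simp only [trV, Finset.mem_image]
    constructor
    · rintro ⟨a, ha, rfl⟩
      rwa [add_sub_cancel_right]
    · intro h
      exact ⟨v - y, h, sub_add_cancel v y⟩
  ext v
  rw [h1]
  simp only [txy, Finset.mem_symmDiff, Finset.mem_singleton, sub_eq_zero, sub_left_inj]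

theorem Df_shO (u : Vx) (z : Om) : shO u z ∈ Df 0 1 g0 ↔ z ∈ Df 0 1 g0 := by
  have h1 : uu (rp (shO u z) 0) g0 = sh u (uu (rp z 0) g0) := rfl
  have h2 : uu (rp (shO u z) 1) g0 = sh u (uu (rp z 1) g0) := rfl
  show uu (rp (shO u z) 0) g0 ≠ uu (rp (shO u z) 1) g0 ↔ uu (rp z 0) g0 ≠ uu (rp z 1) g0
  rw [h1, h2, (sh_injective u).ne_iff]

theorem Ex2_shift (y y' : Vx) : Ex2 y y' ⊆ shO y ⁻¹' Ex2 0 (y' - y) := by
  rintro z ⟨h1, h2, h3, h4, h5⟩
  have e1 : ∀ v, OnW (wl (pr 0 1 g0 (shO y z))) v ↔ OnW (wl (pr 0 1 g0 z)) (v + y) := fun v => by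
    rw [wl_shO, onW_sh]
    rfl
  have e2 : ∀ v, OnW (wl (pr 0 1 (txy 0 (y' - y)) (shO y z))) v ↔
      OnW (wl (pr 0 1 (txy y y') z)) (v + y) := fun v => by
    rw [wl_shO, onW_sh, trV_txy]
    rfl
  refine ⟨(Df_shO y z).2 h1, (e1 0).2 ?_, (e1 _).2 ?_, (e2 0).2 ?_, (e2 _).2 ?_⟩
  · rwa [zero_add]
  · rwa [sub_add_cancel]
  · rwa [zero_add]
  · rwa [sub_add_cancel]

theorem Ex2_le (hR : IsR lam κ R) (y y' : Vx) : R (Ex2 y y') ≤ R (Ex2 0 (y' - y)) :=
  (measure_mono (Ex2_shift y y')).trans ((hR.shift y).measure_preimage_le _)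

theorem box_mono' {a b : ℕ} (hab : a ≤ b) : box a ⊆ box b := by
  intro v hv
  simp only [box, Finset.mem_product, Finset.mem_Icc] at hv ⊢
  omega

/-- exact reflections have positive probability (from `many_good`) -/
theorem posi_of (hl : Wgt lam) (hu : ∀ K : ℝ, lam {x | K < x} ≠ 0)
    (hR : IsR lam κ R) (hW : IsW lam (QQ R))
    (hgood : ∃ c : ENNReal, 0 < c ∧ ∃ (n : ℕ) (C : ℝ), 0 ≤ C ∧ ∀ N : ℕ, ∃ y y' : Vx,
      y' - y ∉ box N ∧ c ≤ R (GG n C y y')) :
    ∃ c : ENNReal, 0 < c ∧ ∀ N : ℕ, ∃ v, v ∉ box N ∧ c ≤ R (Ex2 0 v) := by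
  obtain ⟨c, hc, n, C, hC, h⟩ := hgood
  obtain ⟨c', hc', h'⟩ := swap_prob hl hu hR hW hc n hC
  refine ⟨c', hc', fun N => ?_⟩
  obtain ⟨y, y', hy, hcy⟩ := h (max N (2 * n + 4))
  have h1 : y' - y ∉ box (2 * n + 4) := fun h => hy (box_mono' (le_max_right _ _) h)
  have h2 : y' - y ∉ box N := fun h => hy (box_mono' (le_max_left _ _) h)
  exact ⟨y' - y, h2, (h' y y' h1 hcy).trans (Ex2_le hR y y')⟩

end Pool.Agent.Helper78.MM
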